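import Pool.Agent.Y773.NV.St1

/-!
# NV773 DUAL: the L-function on the line `Re s = -δ`
-/

set_option autoImplicit false

open Complex Filter Topology Set MeasureTheory
open Pool.Agent.Y773 (FEd GG)
open Pool.Agent.Y773.NV

namespace Pool.Agent.Y165.NV

theorem norm_Gamma_le {z : ℂ} (hz : 0 < z.re) : ‖Complex.Gamma z‖ ≤ Real.Gamma z.re := by
  rw [Complex.Gamma_eq_integral hz, Real.Gamma_eq_integral hz]
  unfold Complex.GammaIntegral
  refine (norm_integral_le_integral_norm _).trans (le_of_eq ?_)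
  refine setIntegral_congr_fun measurableSet_Ioi (fun t ht => ?_)
  have ht' : (0 : ℝ) < t := ht
  simp only [norm_mul]
  rw [Complex.norm_cpow_eq_rpow_re_of_pos ht', Complex.norm_real, Real.norm_eq_abs,
    abs_of_pos (Real.exp_pos _)]
  simp

theorem norm_sin_le (z : ℂ) : ‖Complex.sin z‖ ≤ Real.exp |z.im| := by
  unfold Complex.sin
  rw [norm_div, norm_mul, Complex.norm_I, mul_one]
  have h1 : ‖Complex.exp (-z * Complex.I) - Complex.exp (z * Complex.I)‖ ≤
      Real.exp |z.im| + Real.exp |z.im| := by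
    refine (norm_sub_le _ _).trans ?_
    rw [Complex.norm_exp, Complex.norm_exp]
    refine add_le_add (Real.exp_le_exp.mpr ?_) (Real.exp_le_exp.mpr ?_)
    · have : (-z * Complex.I).re = z.im := by simp
      rw [this]; exact le_abs_self _
    · have : (z * Complex.I).re = -z.im := by simp
      rw [this]; exact neg_le_abs _
  have h2 : ‖(2 : ℂ)‖ = 2 := by norm_num
  rw [h2]
  linarith

theorem inv_Gamma_le {z : ℂ} (h1 : z.re ≤ 1 / 2) (h2 : z.im ≠ 0) :
    ‖(Complex.Gamma z)⁻¹‖ ≤ Real.Gamma (1 - z.re) * Real.exp (Real.pi * |z.im|) := by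
  have hR := Complex.Gamma_mul_Gamma_one_sub z
  have hpi : (Real.pi : ℂ) ≠ 0 := by exact_mod_cast Real.pi_ne_zero
  have hre : 0 < (1 - z).re := by
    rw [sub_re, one_re]
    linarith
  have hg : Complex.Gamma (1 - z) ≠ 0 := Complex.Gamma_ne_zero_of_re_pos hre
  have hsin : Complex.sin (Real.pi * z) ≠ 0 := by
    intro h
    rw [Complex.sin_eq_zero_iff] at h
    obtain ⟨k, hk⟩ := h
    have h3 : z = (k : ℂ) := by
      apply mul_left_cancel₀ hpi
      rw [hk]
      ring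
    apply h2
    rw [h3]
    simp
  have e : (Complex.Gamma z)⁻¹ = Complex.Gamma (1 - z) * Complex.sin (Real.pi * z) / Real.pi := by
    have h4 : Complex.Gamma z ≠ 0 := by
      intro h0
      rw [h0, zero_mul] at hR
      exact div_ne_zero hpi hsin hR.symm
    rw [eq_div_iff hsin] at hR
    rw [inv_eq_iff_eq_inv, inv_div, eq_div_iff (mul_ne_zero hg hsin), ← mul_assoc]
    exact hR
  rw [e, norm_div, norm_mul, Complex.norm_real, Real.norm_eq_abs, abs_of_pos Real.pi_pos]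
  have h5 : ‖Complex.Gamma (1 - z)‖ ≤ Real.Gamma (1 - z.re) := by
    have := norm_Gamma_le hre
    rwa [sub_re, one_re] at this
  have h6 : ‖Complex.sin (Real.pi * z)‖ ≤ Real.exp (Real.pi * |z.im|) := by
    have := norm_sin_le (Real.pi * z)
    rwa [im_ofReal_mul, abs_mul, abs_of_pos Real.pi_pos] at this
  have h7 : 0 ≤ Real.Gamma (1 - z.re) := (norm_nonneg _).trans h5
  rw [div_le_iff₀ Real.pi_pos]
  calc ‖Complex.Gamma (1 - z)‖ * ‖Complex.sin (Real.pi * z)‖ ≤
        Real.Gamma (1 - z.re) * Real.exp (Real.pi * |z.im|) :=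
        mul_le_mul h5 h6 (norm_nonneg _) h7
    _ ≤ Real.Gamma (1 - z.re) * Real.exp (Real.pi * |z.im|) * Real.pi := by
        have := Real.pi_gt_three
        have h8 : 0 ≤ Real.Gamma (1 - z.re) * Real.exp (Real.pi * |z.im|) := by positivity
        nlinarith

/-- the constants -/
noncomputable def kk (δ : ℝ) (e : ℕ) : ℝ :=
  Real.pi ^ (-(1 + δ + e) / 2) * Real.Gamma ((1 + δ + e) / 2) *
    (Real.pi ^ ((-δ + e) / 2) * Real.Gamma (1 - (-δ + e) / 2))

theorem kk_nonneg {δ : ℝ} (hδ : 0 < δ) {e : ℕ} (he : e ≤ 1) : 0 ≤ kk δ e := by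
  have he' : (e : ℝ) ≤ 1 := by exact_mod_cast he
  have he0 : (0 : ℝ) ≤ e := Nat.cast_nonneg e
  have h1 := Real.Gamma_pos_of_pos (show (0 : ℝ) < (1 + δ + e) / 2 by positivity)
  have h2 := Real.Gamma_pos_of_pos (show (0 : ℝ) < 1 - (-δ + e) / 2 by linarith)
  have := Real.pi_pos
  unfold kk
  positivity

theorem norm_Gammaℝ (z : ℂ) : ‖Gammaℝ z‖ = Real.pi ^ (-z.re / 2) * ‖Complex.Gamma (z / 2)‖ := by
  rw [Gammaℝ_def, norm_mul, norm_cpow_eq_rpow_re_of_pos Real.pi_pos]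
  congr 2
  rw [← neg_re, show (-z / 2 : ℂ) = ((1 / 2 : ℝ) : ℂ) * (-z) by push_cast; ring, re_ofReal_mul]
  ring

theorem ratio {δ : ℝ} (hδ : 0 < δ) {e : ℕ} (he : e ≤ 1) {y : ℝ} (hy : y ≠ 0) :
    ‖Gammaℝ (((1 + δ : ℝ) : ℂ) + (y : ℂ) * I + e)‖ * ‖(Gammaℝ (((-δ : ℝ) : ℂ) + (y : ℂ) * I + e))⁻¹‖ ≤
      kk δ e * Real.exp (Real.pi / 2 * |y|) := by
  have he' : (e : ℝ) ≤ 1 := by exact_mod_cast he
  have he0 : (0 : ℝ) ≤ e := Nat.cast_nonneg e
  have hpi := Real.pi_pos
  set a : ℂ := ((1 + δ : ℝ) : ℂ) + (y : ℂ) * I + e with ha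
  set b : ℂ := ((-δ : ℝ) : ℂ) + (y : ℂ) * I + e with hb
  have are : a.re = 1 + δ + e := by simp [ha]
  have bre : b.re = -δ + e := by simp [hb]
  have bim : b.im = y := by simp [hb]
  have ha2 : (a / 2).re = (1 + δ + e) / 2 := by
    rw [show (a / 2 : ℂ) = ((1 / 2 : ℝ) : ℂ) * a by push_cast; ring, re_ofReal_mul, are]
    ring
  have hb2 : (b / 2).re = (-δ + e) / 2 := by
    rw [show (b / 2 : ℂ) = ((1 / 2 : ℝ) : ℂ) * b by push_cast; ring, re_ofReal_mul, bre]
    ring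
  have hb3 : (b / 2).im = y / 2 := by
    rw [show (b / 2 : ℂ) = ((1 / 2 : ℝ) : ℂ) * b by push_cast; ring, im_ofReal_mul, bim]
    ring
  have h1 : ‖Gammaℝ a‖ ≤ Real.pi ^ (-(1 + δ + e) / 2) * Real.Gamma ((1 + δ + e) / 2) := by
    rw [norm_Gammaℝ, are]
    refine mul_le_mul_of_nonneg_left ?_ (by positivity)
    have := norm_Gamma_le (z := a / 2) (by rw [ha2]; positivity)
    rwa [ha2] at this
  have h2 : ‖(Gammaℝ b)⁻¹‖ ≤ Real.pi ^ ((-δ + e) / 2) * Real.Gamma (1 - (-δ + e) / 2) *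
      Real.exp (Real.pi / 2 * |y|) := by
    rw [norm_inv, norm_Gammaℝ, bre, mul_inv, ← Real.rpow_neg hpi.le, mul_assoc]
    have e1 : -(-(-δ + (e : ℝ)) / 2) = (-δ + e) / 2 := by ring
    rw [e1]
    refine mul_le_mul_of_nonneg_left ?_ (by positivity)
    have h3 := inv_Gamma_le (z := b / 2) (by rw [hb2]; linarith) (by
      rw [hb3]
      intro h
      apply hy
      linarith)
    rw [hb2, hb3, norm_inv] at h3
    refine h3.trans (le_of_eq ?_)
    rw [abs_div, abs_two]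
    congr 2
    ring
  have h3 := Real.Gamma_pos_of_pos (show (0 : ℝ) < (1 + δ + e) / 2 by positivity)
  calc ‖Gammaℝ a‖ * ‖(Gammaℝ b)⁻¹‖ ≤ (Real.pi ^ (-(1 + δ + e) / 2) * Real.Gamma ((1 + δ + e) / 2)) *
        (Real.pi ^ ((-δ + e) / 2) * Real.Gamma (1 - (-δ + e) / 2) *
      Real.exp (Real.pi / 2 * |y|)) := mul_le_mul h1 h2 (norm_nonneg _) (by positivity)
    _ = _ := by
        unfold kk
        ring

theorem t_dual : St_DUAL := by
  intro ι _ δ hδ hδ2
  have hk0 := kk_nonneg hδ (e := 0) (by norm_num)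
  have hk1 := kk_nonneg hδ (e := 1) le_rfl
  set C0 : ℝ := 1 + kk δ 0 + kk δ 1 with hC0
  have hC01 : 1 ≤ C0 := by linarith
  refine ⟨C0 ^ Fintype.card ι, Fintype.card ι * (Real.pi / 2), one_le_pow₀ hC01,
    by have := Real.pi_pos; positivity, ?_⟩
  intro R e F B hR hF hB y
  have hB0 : 0 ≤ B := (norm_nonneg _).trans (hB 0)
  -- away from the real axis
  have main : ∀ y : ℝ, y ≠ 0 → ‖F (((-δ : ℝ) : ℂ) + (y : ℂ) * I)‖ ≤
      C0 ^ Fintype.card ι * B * R ^ (1 / 2 + δ) * Real.exp (Fintype.card ι * (Real.pi / 2) * |y|) := by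
    intro y hy
    set s : ℂ := ((-δ : ℝ) : ℂ) + (y : ℂ) * I with hs
    set s' : ℂ := ((1 + δ : ℝ) : ℂ) + (y : ℂ) * I with hs'
    have sre : s.re = -δ := by simp [hs]
    have sim : s.im = y := by simp [hs]
    have sre' : s'.re = 1 + δ := by simp [hs']
    have hss : 1 - (starRingEnd ℂ) s = s' := by
      apply Complex.ext
      · simp [hs, hs']
      · simp [hs, hs']
    obtain ⟨w, hw, hfe⟩ := hF.fe
    have h1 := congrArg norm (hfe s (by rw [sim]; exact hy))
    rw [hss, norm_mul, norm_mul, hw, one_mul, RCLike.norm_conj, norm_mul] at h1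
    have hne : ∀ i, Gammaℝ (s + e i) ≠ 0 := by
      intro i h0
      rw [Gammaℝ_eq_zero_iff] at h0
      obtain ⟨n, hn⟩ := h0
      have := congrArg Complex.im hn
      simp [sim] at this
      exact hy this
    have hG : ∀ z : ℂ, ‖GG R e z‖ = R ^ (z.re / 2) * ∏ i, ‖Gammaℝ (z + e i)‖ := by
      intro z
      unfold GG
      rw [norm_mul, norm_cpow_eq_rpow_re_of_pos hR, norm_prod]
      congr 2
      rw [show (z / 2 : ℂ) = ((1 / 2 : ℝ) : ℂ) * z by push_cast; ring, re_ofReal_mul]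
      ring
    have hP : 0 < ∏ i, ‖Gammaℝ (s + e i)‖ := Finset.prod_pos fun i _ => norm_pos_iff.2 (hne i)
    have hRp : 0 < R ^ (s.re / 2) := Real.rpow_pos_of_pos hR _
    have h2 : ‖F s‖ = R ^ (1 / 2 + δ) * (∏ i, ‖Gammaℝ (s' + e i)‖ * ‖(Gammaℝ (s + e i))⁻¹‖) *
        ‖F s'‖ := by
      rw [hG, hG] at h1
      rw [Finset.prod_mul_distrib]
      have h3 : ∏ i, ‖(Gammaℝ (s + e i))⁻¹‖ = (∏ i, ‖Gammaℝ (s + e i)‖)⁻¹ := by
        rw [← Finset.prod_inv_distrib]
        exact Finset.prod_congr rfl fun i _ => norm_inv _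
      have h4 : R ^ (s'.re / 2) = R ^ (1 / 2 + δ) * R ^ (s.re / 2) := by
        rw [← Real.rpow_add hR, sre, sre']
        congr 1
        ring
      rw [h3]
      rw [h4] at h1
      have h5 : R ^ (s.re / 2) * ∏ i, ‖Gammaℝ (s + e i)‖ ≠ 0 := (mul_pos hRp hP).ne'
      apply mul_left_cancel₀ h5
      rw [h1]
      field_simp
    rw [h2]
    have h3 : ∏ i, ‖Gammaℝ (s' + e i)‖ * ‖(Gammaℝ (s + e i))⁻¹‖ ≤
        (C0 * Real.exp (Real.pi / 2 * |y|)) ^ Fintype.card ι := by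
      calc ∏ i, ‖Gammaℝ (s' + e i)‖ * ‖(Gammaℝ (s + e i))⁻¹‖ ≤
            ∏ _i : ι, (C0 * Real.exp (Real.pi / 2 * |y|)) := by
            refine Finset.prod_le_prod (fun i _ => by positivity) fun i _ => ?_
            have h4 := ratio hδ (hF.he i) hy
            refine h4.trans (mul_le_mul_of_nonneg_right ?_ (Real.exp_pos _).le)
            have h5 := hF.he i
            interval_cases h6 : e i <;> linarith
        _ = _ := by
            rw [Finset.prod_const, Finset.card_univ]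
    have h4 : (C0 * Real.exp (Real.pi / 2 * |y|)) ^ Fintype.card ι =
        C0 ^ Fintype.card ι * Real.exp (Fintype.card ι * (Real.pi / 2) * |y|) := by
      rw [mul_pow, ← Real.exp_nat_mul, mul_assoc (Fintype.card ι : ℝ)]
    rw [h4] at h3
    calc R ^ (1 / 2 + δ) * (∏ i, ‖Gammaℝ (s' + e i)‖ * ‖(Gammaℝ (s + e i))⁻¹‖) * ‖F s'‖ ≤
          R ^ (1 / 2 + δ) * (C0 ^ Fintype.card ι *
            Real.exp (Fintype.card ι * (Real.pi / 2) * |y|)) * B := by
          refine mul_le_mul ?_ (hB y) (norm_nonneg _) (by positivity)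
          exact mul_le_mul_of_nonneg_left h3 (by positivity)
      _ = _ := by ring
  by_cases hy : y = 0
  · rw [hy]
    have hc1 : Continuous fun y : ℝ => ‖F (((-δ : ℝ) : ℂ) + (y : ℂ) * I)‖ := by
      have := hF.diff.continuous
      fun_prop
    have hc2 : Continuous fun y : ℝ => C0 ^ Fintype.card ι * B * R ^ (1 / 2 + δ) *
        Real.exp (Fintype.card ι * (Real.pi / 2) * |y|) := by fun_prop
    have t1 := (hc1.tendsto 0).mono_left (nhdsWithin_le_nhds (s := {(0 : ℝ)}ᶜ))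
    have t2 := (hc2.tendsto 0).mono_left (nhdsWithin_le_nhds (s := {(0 : ℝ)}ᶜ))
    refine le_of_tendsto_of_tendsto t1 t2 ?_
    filter_upwards [self_mem_nhdsWithin] with z hz
    exact main z hz
  · exact main y hy

end Pool.Agent.Y165.NV
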