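import Pool.Agent.Y773.NV.St0

/-!
# NV773 SEL2: Selberg's weights to the left of `Re w = 0`
-/

set_option autoImplicit false

open Complex Finset Pool.Agent.Y773.NV

namespace Pool.Agent.Y165.NV

open Classical in
theorem card_fib {ι : Type} (U : Finset ι) (S : Finset (Finset ι × Finset ι)) :
    (S.filter (fun p => p.1 ∪ p.2 = U)).card ≤ 3 ^ U.card := by
  have h1 : S.filter (fun p => p.1 ∪ p.2 = U) ⊆ U.powerset.biUnion
      (fun A => A.powerset.image (fun C => (A, (U \ A) ∪ C))) := by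
    intro p hp
    rw [mem_filter] at hp
    obtain ⟨-, rfl⟩ := hp
    rw [mem_biUnion]
    refine ⟨p.1, mem_powerset.2 subset_union_left, mem_image.2 ⟨p.2 ∩ p.1,
      mem_powerset.2 inter_subset_right, ?_⟩⟩
    refine Prod.ext rfl ?_
    ext x
    simp only [mem_union, mem_sdiff, mem_inter]
    tauto
  calc (S.filter (fun p => p.1 ∪ p.2 = U)).card ≤ _ := card_le_card h1
    _ ≤ ∑ A ∈ U.powerset, (A.powerset.image (fun C => (A, (U \ A) ∪ C))).card := card_biUnion_le
    _ ≤ ∑ A ∈ U.powerset, 2 ^ A.card * 1 ^ (U.card - A.card) := by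
        refine sum_le_sum fun A _ => ?_
        rw [one_pow, mul_one, ← card_powerset]
        exact card_image_le
    _ = 3 ^ U.card := by
        rw [sum_pow_mul_eq_add_pow]

theorem nA_ge {ι : Type} {P : Finset ι} {N : ι → ℝ} (hN : ∀ p ∈ P, 2 ≤ N p) {A : Finset ι}
    (hA : A ⊆ P) : 1 ≤ nA N A := by
  unfold nA
  calc (1 : ℝ) = ∏ p ∈ A, (1 : ℝ) := prod_const_one.symm
    _ ≤ ∏ p ∈ A, N p := by
      refine prod_le_prod (fun _ _ => zero_le_one) fun p hp => ?_
      have := hN p (hA hp)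
      linarith

open Classical in
theorem t_sel2 (hS : St_SEL) : St_SEL2 := by
  intro ι P N M hN hM w hw1 hw2
  obtain ⟨-, -, hb, -⟩ := hS ι P N M hN hM
  have hSM : ∀ {A : Finset ι}, A ∈ SM P N M → A ⊆ P ∧ nA N A ≤ M := by
    intro A hA
    unfold SM at hA
    rw [mem_filter, mem_powerset] at hA
    exact hA
  have hM0 : 0 < M := by linarith
  -- each term
  have hterm : ∀ A ∈ SM P N M, ∀ B ∈ SM P N M, ‖((bS P N M A * bS P N M B : ℝ) : ℂ) *
      ((nA N A * nA N B : ℝ) : ℂ) ^ w * ((nA N (A ∪ B) : ℝ) : ℂ) ^ (-1 - 2 * w)‖ ≤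
      M ^ (-2 * w.re) * (4 ^ (A ∪ B).card / nA N (A ∪ B)) := by
    intro A hA B hB
    obtain ⟨hAP, hAM⟩ := hSM hA
    obtain ⟨hBP, hBM⟩ := hSM hB
    have a1 := nA_ge hN hAP
    have b1 := nA_ge hN hBP
    have u1 := nA_ge hN (union_subset hAP hBP)
    have i1 := nA_ge hN (inter_subset_left.trans hAP : A ∩ B ⊆ P)
    have hui : nA N (A ∪ B) * nA N (A ∩ B) = nA N A * nA N B := prod_union_inter
    have hab : nA N (A ∪ B) ≤ nA N A * nA N B := by
      rw [← hui]
      nlinarith
    have habM : nA N A * nA N B ≤ M ^ 2 := by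
      rw [sq]
      exact mul_le_mul hAM hBM (by linarith) (by linarith)
    have hU0 : 0 < nA N (A ∪ B) := by linarith
    have hAB0 : 0 < nA N A * nA N B := by nlinarith
    rw [norm_mul, norm_mul, norm_real, norm_cpow_eq_rpow_re_of_pos hAB0,
      norm_cpow_eq_rpow_re_of_pos hU0, Real.norm_eq_abs, abs_mul]
    have e1 : (-1 - 2 * w).re = -1 + (-2 * w.re) := by
      simp [sub_eq_add_neg]
    rw [e1]
    have h1 : (nA N A * nA N B) ^ w.re ≤ nA N (A ∪ B) ^ w.re :=
      Real.rpow_le_rpow_of_nonpos hU0 hab hw2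
    have h2 : |bS P N M A| * |bS P N M B| ≤ 4 ^ (A ∪ B).card := by
      calc |bS P N M A| * |bS P N M B| ≤ 2 ^ A.card * 2 ^ B.card :=
            mul_le_mul (hb A hA) (hb B hB) (abs_nonneg _) (by positivity)
        _ ≤ 2 ^ (A ∪ B).card * 2 ^ (A ∪ B).card := by
            refine mul_le_mul ?_ ?_ (by positivity) (by positivity)
            · exact pow_le_pow_right₀ (by norm_num) (card_le_card subset_union_left)
            · exact pow_le_pow_right₀ (by norm_num) (card_le_card subset_union_right)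
        _ = 4 ^ (A ∪ B).card := by
            rw [← mul_pow]
            norm_num
    have h3 : nA N (A ∪ B) ^ w.re * nA N (A ∪ B) ^ (-1 + (-2 * w.re)) ≤
        M ^ (-2 * w.re) * (nA N (A ∪ B))⁻¹ := by
      have h4 : nA N (A ∪ B) ^ w.re * nA N (A ∪ B) ^ (-1 + (-2 * w.re)) =
          nA N (A ∪ B) ^ (-w.re) * (nA N (A ∪ B))⁻¹ := by
        rw [← Real.rpow_neg_one (nA N (A ∪ B)), ← Real.rpow_add hU0, ← Real.rpow_add hU0]
        congr 1
        ring
      rw [h4]
      refine mul_le_mul_of_nonneg_right ?_ (by positivity)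
      calc nA N (A ∪ B) ^ (-w.re) ≤ (M ^ 2) ^ (-w.re) :=
            Real.rpow_le_rpow hU0.le (hab.trans habM) (by linarith)
        _ = M ^ (-2 * w.re) := by
            rw [← Real.rpow_natCast M 2, ← Real.rpow_mul hM0.le]
            congr 1
            push_cast
            ring
    calc |bS P N M A| * |bS P N M B| * (nA N A * nA N B) ^ w.re *
          nA N (A ∪ B) ^ (-1 + (-2 * w.re)) ≤
          4 ^ (A ∪ B).card * (nA N (A ∪ B) ^ w.re * nA N (A ∪ B) ^ (-1 + (-2 * w.re))) := by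
          rw [mul_assoc (|bS P N M A| * |bS P N M B|)]
          refine mul_le_mul h2 ?_ (by positivity) (by positivity)
          exact mul_le_mul_of_nonneg_right h1 (by positivity)
      _ ≤ 4 ^ (A ∪ B).card * (M ^ (-2 * w.re) * (nA N (A ∪ B))⁻¹) :=
          mul_le_mul_of_nonneg_left h3 (by positivity)
      _ = _ := by
          rw [div_eq_mul_inv]
          ring
  have hmaps : ∀ p ∈ SM P N M ×ˢ SM P N M, p.1 ∪ p.2 ∈ SM P N (M ^ 2) := by
    intro p hp
    rw [mem_product] at hp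
    obtain ⟨hAP, hAM⟩ := hSM hp.1
    obtain ⟨hBP, hBM⟩ := hSM hp.2
    unfold SM
    rw [mem_filter, mem_powerset]
    refine ⟨union_subset hAP hBP, ?_⟩
    have a1 := nA_ge hN hAP
    have b1 := nA_ge hN hBP
    have i1 := nA_ge hN (inter_subset_left.trans hAP : p.1 ∩ p.2 ⊆ P)
    have u1 := nA_ge hN (union_subset hAP hBP)
    have hui : nA N (p.1 ∪ p.2) * nA N (p.1 ∩ p.2) = nA N p.1 * nA N p.2 := prod_union_inter
    have hab : nA N (p.1 ∪ p.2) ≤ nA N p.1 * nA N p.2 := by
      rw [← hui]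
      nlinarith
    refine hab.trans ?_
    rw [sq]
    exact mul_le_mul hAM hBM (by linarith) (by linarith)
  unfold BB
  calc ‖∑ A ∈ SM P N M, ∑ B ∈ SM P N M, ((bS P N M A * bS P N M B : ℝ) : ℂ) *
        ((nA N A * nA N B : ℝ) : ℂ) ^ w * ((nA N (A ∪ B) : ℝ) : ℂ) ^ (-1 - 2 * w)‖ ≤
        ∑ A ∈ SM P N M, ∑ B ∈ SM P N M,
          M ^ (-2 * w.re) * (4 ^ (A ∪ B).card / nA N (A ∪ B)) := by
        refine (norm_sum_le _ _).trans (sum_le_sum fun A hA => ?_)
        exact (norm_sum_le _ _).trans (sum_le_sum fun B hB => hterm A hA B hB)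
    _ = M ^ (-2 * w.re) * ∑ p ∈ SM P N M ×ˢ SM P N M,
          4 ^ (p.1 ∪ p.2).card / nA N (p.1 ∪ p.2) := by
        rw [mul_sum, sum_product]
    _ = M ^ (-2 * w.re) * ∑ U ∈ SM P N (M ^ 2), ∑ p ∈ (SM P N M ×ˢ SM P N M).filter
          (fun p => p.1 ∪ p.2 = U), 4 ^ (p.1 ∪ p.2).card / nA N (p.1 ∪ p.2) := by
        rw [sum_fiberwise_of_maps_to hmaps]
    _ ≤ M ^ (-2 * w.re) * ∑ U ∈ SM P N (M ^ 2), 12 ^ U.card / nA N U := by
        refine mul_le_mul_of_nonneg_left (sum_le_sum fun U hU => ?_) (by positivity)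
        have hUP : U ⊆ P := by
          unfold SM at hU
          rw [mem_filter, mem_powerset] at hU
          exact hU.1
        have u1 := nA_ge hN hUP
        calc ∑ p ∈ (SM P N M ×ˢ SM P N M).filter (fun p => p.1 ∪ p.2 = U),
              4 ^ (p.1 ∪ p.2).card / nA N (p.1 ∪ p.2) =
              ∑ p ∈ (SM P N M ×ˢ SM P N M).filter (fun p => p.1 ∪ p.2 = U),
              4 ^ U.card / nA N U := by
              refine sum_congr rfl fun p hp => ?_
              rw [(mem_filter.1 hp).2]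
          _ = ((SM P N M ×ˢ SM P N M).filter (fun p => p.1 ∪ p.2 = U)).card *
              (4 ^ U.card / nA N U) := by
              rw [sum_const, nsmul_eq_mul]
          _ ≤ (3 ^ U.card : ℕ) * (4 ^ U.card / nA N U) := by
              refine mul_le_mul_of_nonneg_right ?_ (by positivity)
              exact_mod_cast card_fib U _
          _ = 12 ^ U.card / nA N U := by
              push_cast
              rw [← mul_div_assoc, ← mul_pow]
              norm_num

end Pool.Agent.Y165.NV
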